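import Mathlib
import Pool.Agent.Work.MP_122e00_nt.Sharp.Main
import Pool.Agent.Work.MP_122e00_nt.Sharp.Cert.Bound
import Pool.Agent.Work.MP_122e00_nt.Gen.Main
import Pool.Agent.Work.MP_122e00_nt.Four.Main
import Pool.Agent.Work.MP_122e00_nt.WR.AllS
import Pool.Agent.Work.MP_122e00_nt.Euler4

/-!
Explicit two-sided bounds, for every `r ≥ 3`, for the quotient of `D_r(X;h)` by its conjectured size:
within `4.69` percent for `r = 3`.
-/

namespace Pool.Agent.Results.MP_122e00_nt.ExplicitBounds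

open Filter Topology ArithmeticFunction
open scoped ArithmeticFunction.zeta

/-- The probability that `p ^ j` divides the product of `s` independent random integers. -/
noncomputable def prob (s p j : ℕ) : ℝ :=
  1 - (1 - 1 / (p : ℝ)) ^ s *
    ∑ i ∈ Finset.range j, ((i + s - 1).choose (s - 1) : ℝ) / (p : ℝ) ^ i

/-- The local factor at `p`, where `ν` is the exponent of `p` in the shift. -/
noncomputable def localFactor (s p ν : ℕ) : ℝ :=
  ∑ j ∈ Finset.range (ν + 1), (p : ℝ) ^ j * (prob s p j ^ 2 - prob s p (j + 1) ^ 2)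

/-- The conjectured leading coefficient of `D_r(X;h) / (X (log X)^(2(r-1)))`. -/
noncomputable def leadCoeff (r h : ℕ) : ℝ :=
  (∏' p : Nat.Primes, localFactor (r - 1) p (h.factorization p)) / ((r - 1).factorial : ℝ) ^ 2

/-- The shifted convolution sum `D_r(X;h)`. -/
noncomputable def D (r h : ℕ) (X : ℝ) : ℝ :=
  ∑ n ∈ Finset.Icc 1 ⌊X⌋₊, ((((ζ : ArithmeticFunction ℕ) ^ r) n *
    ((ζ : ArithmeticFunction ℕ) ^ r) (n + h) : ℕ) : ℝ)

/-- The conjectured size of `D_r(X;h)`. -/
noncomputable def size (r h : ℕ) (X : ℝ) : ℝ := leadCoeff r h * (X * (Real.log X) ^ (2 * (r - 1)))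

/-- The lower constant: `0.969` for `r = 3`, `0.790` for `r = 4`. -/
noncomputable def lower (r : ℕ) : ℝ :=
  if r = 3 then 1737 / 1792
  else if r = 4 then 4996861 / 6322176
  else 1 - (1 - (r : ℝ) / 2 ^ (r - 1)) ^ 2

/-- The upper constant. -/
noncomputable def upper (r : ℕ) : ℝ :=
  if r = 3 then 1046897 / 1000000
  else if r = 4 then 1581 / 1000
  else (r : ℝ) ^ 2 / 2 ^ (r - 1) * (2 * ((r : ℝ) - 1) / r) ^ (r * (r - 1))

theorem result (r h : ℕ) (hr : 3 ≤ r) (hh : 0 < h) :
    0 < leadCoeff r h ∧ ∀ a b : ℝ, a < lower r → upper r < b →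
      ∀ᶠ X : ℝ in atTop, a * size r h X ≤ D r h X ∧ D r h X ≤ b * size r h X := by
  have hh0 : h ≠ 0 := by omega
  obtain ⟨t, rfl⟩ : ∃ t, r = t + 2 := ⟨r - 2, by omega⟩
  have hs : 1 ≤ t + 1 := by omega
  have hlead : leadCoeff (t + 2) h =
      Work.MP_122e00_nt.Csing (t + 1) h / ((t + 1).factorial : ℝ) ^ 2 := by
    unfold leadCoeff
    rw [show t + 2 - 1 = t + 1 by omega, Work.MP_122e00_nt.Csing_eq hs h hh0]
    rfl
  have hpos := Work.MP_122e00_nt.Csing_pos hs h hh0
  have hl0 : 0 < leadCoeff (t + 2) h := by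
    rw [hlead]
    positivity
  have hDS : ∀ X : ℝ, Work.MP_122e00_nt.Gen.DS (t + 1) h 0 ⌊X⌋₊ = D (t + 2) h X := by
    intro X
    unfold Work.MP_122e00_nt.Gen.DS D
    have e : Finset.Icc 1 ⌊X⌋₊ = Finset.Ioc 0 ⌊X⌋₊ := by
      ext n
      simp only [Finset.mem_Icc, Finset.mem_Ioc]
      omega
    rw [e]
    refine Finset.sum_congr rfl fun n _ => ?_
    push_cast
    rfl
  have hQ : ∀ᶠ X : ℝ in atTop, 0 < X * (Real.log X) ^ (2 * (t + 1)) := by
    filter_upwards [eventually_gt_atTop (1 : ℝ)] with X hX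
    have := Real.log_pos hX
    positivity
  have hsz : ∀ X : ℝ, size (t + 2) h X =
      leadCoeff (t + 2) h * (X * (Real.log X) ^ (2 * (t + 1))) := by
    intro X
    unfold size
    rw [show t + 2 - 1 = t + 1 by omega]
  refine ⟨hl0, fun a b ha hb => ?_⟩
  have hkap : lower (t + 2) ≤ Work.MP_122e00_nt.WR.kap (t + 1) (Fin.last t) 0 := by
    unfold lower
    by_cases h3 : t + 2 = 3
    · obtain rfl : t = 1 := by omega
      rw [if_pos rfl]
      exact (Work.MP_122e00_nt.WR.vol3 _).ge
    · rw [if_neg h3]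
      by_cases h4 : t + 2 = 4
      · obtain rfl : t = 2 := by omega
        rw [if_pos rfl]
        exact (Work.MP_122e00_nt.WR.vol4 _).ge
      · rw [if_neg h4, show t + 2 - 1 = t + 1 by omega]
        unfold Work.MP_122e00_nt.WR.kap
        have e1 : (((t + 2 : ℕ) : ℝ)) = ((t + 1 : ℕ) : ℝ) + 1 := by push_cast; ring
        rw [e1]
        have h6 : 0 ≤ ((((t + 1 : ℕ) : ℝ) + 1) * ((t + 1 : ℕ) : ℝ) * (t + 1).factorial) ^ 2 *
            MeasureTheory.volume.real (Work.MP_122e00_nt.WR.TD (Fin.last t) 0) := by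
          positivity
        linarith
  have hlow : ∀ᶠ X : ℝ in atTop, a * size (t + 2) h X ≤ D (t + 2) h X := by
    have h1 := Work.MP_122e00_nt.WR.sharp (t + 1) h (Fin.last t) hh0
    rw [← hlead] at h1
    have h2 : a * leadCoeff (t + 2) h <
        Work.MP_122e00_nt.WR.kap (t + 1) (Fin.last t) 0 * leadCoeff (t + 2) h :=
      mul_lt_mul_of_pos_right (lt_of_lt_of_le ha hkap) hl0
    filter_upwards [h1.eventually (eventually_gt_nhds h2), hQ] with X hX hX1
    rw [lt_div_iff₀ hX1, hDS] at hX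
    have h3 : 0 ≤ Work.MP_122e00_nt.WR.coreS (t + 1) h 0 X := by
      unfold Work.MP_122e00_nt.WR.coreS
      exact Finset.sum_nonneg fun n _ => by positivity
    rw [hsz]
    nlinarith
  have hup : ∀ᶠ X : ℝ in atTop, D (t + 2) h X ≤ b * size (t + 2) h X := by
    unfold upper at hb
    by_cases h3 : t + 2 = 3
    · obtain rfl : t = 1 := by omega
      rw [if_pos rfl] at hb
      have hmain := Work.MP_122e00_nt.Sharp.main 10 3 (23336 / 1000000) (by norm_num) (by norm_num)
        (by norm_num) Work.MP_122e00_nt.Sharp.Cx.certBound h hh0 (b - 1) (by linarith)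
      have h4 : (((1 + 1 : ℕ).factorial : ℝ)) ^ 2 = 4 := by norm_num [Nat.factorial]
      rw [h4] at hlead
      filter_upwards [hmain] with X hX
      rw [← hlead] at hX
      have h5 := (abs_le.mp hX).2
      have h6 : Work.MP_122e00_nt.Gen.DS 2 h 0 ⌊X⌋₊ = D (1 + 2) h X := hDS X
      rw [h6] at h5
      rw [hsz]
      have e6 : (2 * 2 : ℕ) = 2 * (1 + 1) := rfl
      rw [e6] at h5
      linarith
    · rw [if_neg h3] at hb
      by_cases h4 : t + 2 = 4
      · obtain rfl : t = 2 := by omega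
        rw [if_pos rfl] at hb
        have h5 : (((2 + 1 : ℕ).factorial : ℝ)) ^ 2 = 36 := by norm_num [Nat.factorial]
        rw [h5] at hlead
        filter_upwards [Work.MP_122e00_nt.Four.main h hh0, hQ] with X hX hX1
        rw [← hlead] at hX
        have h6 := (abs_le.mp hX).2
        have h7 : Work.MP_122e00_nt.Gen.DS 3 h 0 ⌊X⌋₊ = D (2 + 2) h X := hDS X
        rw [h7] at h6
        rw [hsz]
        have e6 : (2 * 3 : ℕ) = 2 * (2 + 1) := rfl
        rw [e6] at h6
        have h8 : 0 < leadCoeff (2 + 2) h * (X * (Real.log X) ^ (2 * (2 + 1))) := mul_pos hl0 hX1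
        have h9 := mul_lt_mul_of_pos_right hb h8
        rw [mul_assoc] at h6
        generalize leadCoeff (2 + 2) h * (X * (Real.log X) ^ (2 * (2 + 1))) = Q at h6 h9 ⊢
        linarith
      · rw [if_neg h4] at hb
        have h1 := Work.MP_122e00_nt.Gen.mFinal (t + 1) h hs hh0 (b * leadCoeff (t + 2) h) (by
          rw [hlead]
          refine lt_of_eq_of_lt ?_ (mul_lt_mul_of_pos_right hb (by positivity))
          rw [show t + 2 - 1 = t + 1 by omega]
          push_cast
          rw [mul_comm (t + 1) (t + 2)]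
          have e1 : (t : ℝ) + 2 - 1 = t + 1 := by ring
          have e2 : (t : ℝ) + 1 + 1 = t + 2 := by ring
          rw [e1, e2]
          ring)
        filter_upwards [h1] with X hX
        rw [hDS] at hX
        rw [hsz]
        linarith
  filter_upwards [hlow, hup] with X h1 h2
  exact ⟨h1, h2⟩

end Pool.Agent.Results.MP_122e00_nt.ExplicitBounds
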