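import Mathlib
import Pool.Agent.Work.MP_122e00_nt.FP.All
import Pool.Agent.Work.MP_122e00_nt.Euler4

/-!
The asymptotic formula for `D_r(X; F(k))` with the whole polynomial, for almost all values `F(k)` of every
polynomial `F` and all `X` with `F(k) ≤ X^b`; relative error `(log log X)^C / (log F(k))^(2r)`.
-/

namespace Pool.Agent.Results.MP_122e00_nt.FullPolynomial

open Filter Topology ArithmeticFunction
open scoped ArithmeticFunction.zeta

/-- The probability that `p ^ j` divides the product of `s` independent random integers. -/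
noncomputable def prob (s p j : ℕ) : ℝ :=
  1 - (1 - 1 / (p : ℝ)) ^ s *
    ∑ i ∈ Finset.range j, ((i + s - 1).choose (s - 1) : ℝ) / (p : ℝ) ^ i

/-- The local factor at `p`, where `ν` is the exponent of `p` in the shift. -/
noncomputable def localFactor (s p ν : ℕ) : ℝ :=
  ∑ j ∈ Finset.range (ν + 1), (p : ℝ) ^ j * (prob s p j ^ 2 - prob s p (j + 1) ^ 2)

/-- The conjectured leading coefficient of `D_r(X;h) / (X (log X)^(2(r-1)))`. -/
noncomputable def leadCoeff (r h : ℕ) : ℝ :=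
  (∏' p : Nat.Primes, localFactor (r - 1) p (h.factorization p)) / ((r - 1).factorial : ℝ) ^ 2

theorem result (r : ℕ) (hr : 2 ≤ r) :
    ∃ P : ℕ → Polynomial ℝ,
      (∀ h : ℕ, 0 < h → (P h).natDegree = 2 * (r - 1) ∧ (P h).leadingCoeff = leadCoeff r h ∧
        0 < leadCoeff r h) ∧
      ∀ F : Polynomial ℤ, 1 ≤ F.natDegree → 0 < F.leadingCoeff →
      ∀ b A : ℝ, 0 < b → b < 1 → 0 < A →
      ∃ (C : ℝ) (S : Set ℕ),
        (∀ K : ℕ, 2 ≤ K →
          (Set.ncard {k : ℕ | k ∈ S ∧ 1 ≤ k ∧ k ≤ K} : ℝ) ≤ C * (K / Real.log K ^ A)) ∧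
        ∀ k : ℕ, k ∉ S → 1 ≤ F.eval (k : ℤ) ∧ ∀ X : ℝ, 16 ≤ X →
          ((F.eval (k : ℤ) : ℤ) : ℝ) ≤ X ^ b →
          |(∑ n ∈ Finset.Icc 1 ⌊X⌋₊, ((((ζ : ArithmeticFunction ℕ) ^ r) n *
              ((ζ : ArithmeticFunction ℕ) ^ r) (n + (F.eval (k : ℤ)).toNat) : ℕ) : ℝ)) -
            X * (P (F.eval (k : ℤ)).toNat).eval (Real.log X)| ≤
          C * (X * Real.log X ^ (2 * r - 2) * Real.log (Real.log X) ^ C /
            Real.log (((F.eval (k : ℤ) : ℤ) : ℝ) + 1) ^ (2 * r)) := by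
  obtain ⟨P, hP, hF⟩ := Work.MP_122e00_nt.FP.mainF r hr
  have hlead : ∀ h : ℕ, h ≠ 0 → leadCoeff r h =
      Work.MP_122e00_nt.Csing (r - 1) h / ((r - 1).factorial : ℝ) ^ 2 := by
    intro h hh
    unfold leadCoeff
    rw [Work.MP_122e00_nt.Csing_eq (by omega : 1 ≤ r - 1) h hh]
    rfl
  refine ⟨P, fun h hh => ⟨(hP h hh).1, ?_, ?_⟩, fun F hF1 hF2 b A hb0 hb1 hA => ?_⟩
  · rw [hlead h (by omega)]
    exact (hP h hh).2
  · rw [hlead h (by omega)]
    have := Work.MP_122e00_nt.Csing_pos (by omega : 1 ≤ r - 1) h (by omega)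
    positivity
  · obtain ⟨C, S, hS, hk⟩ := hF F hF1 hF2 b A hb0 hb1 hA
    refine ⟨C, S, hS, fun k hkS => ⟨(hk k hkS).1, fun X hX hX1 => ?_⟩⟩
    have := (hk k hkS).2 X hX hX1
    have e : (∑ n ∈ Finset.Icc 1 ⌊X⌋₊, ((((ζ : ArithmeticFunction ℕ) ^ r) n *
        ((ζ : ArithmeticFunction ℕ) ^ r) (n + (F.eval (k : ℤ)).toNat) : ℕ) : ℝ)) =
        Work.MP_122e00_nt.TS.cor (Work.MP_122e00_nt.TS.dr r) (Work.MP_122e00_nt.TS.dr r) ⌊X⌋₊
          (F.eval (k : ℤ)).toNat := by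
      unfold Work.MP_122e00_nt.TS.cor Work.MP_122e00_nt.TS.dr
      refine Finset.sum_congr rfl fun n _ => ?_
      push_cast
      rfl
    rw [e]
    exact this

end Pool.Agent.Results.MP_122e00_nt.FullPolynomial
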