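import Mathlib
import Pool.Agent.Work.MP_122e00_nt.TS.AllC
import Pool.Agent.Work.MP_122e00_nt.Euler4

/-!
The asymptotic formula for `D_r(X; F(k))`, for every `r` and every polynomial `F`, for all `k` outside a set
with a power saving, as soon as `F(k)` lies between a power of `log X` and `X^b`, `b < 1`.
-/

namespace Pool.Agent.Results.MP_122e00_nt.PolynomialShifts

open Filter Topology ArithmeticFunction
open scoped ArithmeticFunction.zeta

/-- The probability that `p ^ j` divides the product of `s` independent random integers. -/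
noncomputable def prob (s p j : ℕ) : ℝ :=
  1 - (1 - 1 / (p : ℝ)) ^ s *
    ∑ i ∈ Finset.range j, ((i + s - 1).choose (s - 1) : ℝ) / (p : ℝ) ^ i

/-- The local factor at `p`, where `ν` is the exponent of `p` in the shift. -/
noncomputable def localFactor (s p ν : ℕ) : ℝ :=
  ∑ j ∈ Finset.range (ν + 1), (p : ℝ) ^ j * (prob s p j ^ 2 - prob s p (j + 1) ^ 2)

/-- The conjectured leading coefficient of `D_r(X;h) / (X (log X)^(2(r-1)))`. -/
noncomputable def leadCoeff (r h : ℕ) : ℝ :=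
  (∏' p : Nat.Primes, localFactor (r - 1) p (h.factorization p)) / ((r - 1).factorial : ℝ) ^ 2

theorem result (r : ℕ) (hr : 2 ≤ r) (F : Polynomial ℤ) (hF : 1 ≤ F.natDegree)
    (hF0 : 0 < F.leadingCoeff) (b η : ℝ) (hb : 0 < b) (hb1 : b < 1) (hη : 0 < η) :
    ∃ (A δ C : ℝ) (S : Set ℕ), 0 < A ∧ 0 < δ ∧
      (∀ K : ℕ, 1 ≤ K →
        (Set.ncard {k : ℕ | k ∈ S ∧ 1 ≤ k ∧ k ≤ K} : ℝ) ≤ C * (K : ℝ) ^ (1 - δ)) ∧
      ∀ k : ℕ, k ∉ S → 1 ≤ F.eval (k : ℤ) ∧ 0 < leadCoeff r (F.eval (k : ℤ)).toNat ∧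
        ∀ X : ℝ, 1 ≤ X → Real.log X ^ A ≤ ((F.eval (k : ℤ) : ℤ) : ℝ) →
          ((F.eval (k : ℤ) : ℤ) : ℝ) ≤ X ^ b →
          |(∑ n ∈ Finset.Icc 1 ⌊X⌋₊, ((((ζ : ArithmeticFunction ℕ) ^ r) n *
              ((ζ : ArithmeticFunction ℕ) ^ r) (n + (F.eval (k : ℤ)).toNat) : ℕ) : ℝ)) -
            leadCoeff r (F.eval (k : ℤ)).toNat * (X * Real.log X ^ (2 * (r - 1)))| ≤
          η * (leadCoeff r (F.eval (k : ℤ)).toNat * (X * Real.log X ^ (2 * (r - 1)))) := by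
  obtain ⟨A, δ, C, S, hA, hδ, hS, hk⟩ := Work.MP_122e00_nt.TS.mainC r hr F hF hF0 b η hb hb1 hη
  have hlead : ∀ h : ℕ, h ≠ 0 → leadCoeff r h = Work.MP_122e00_nt.TS.lc r h := by
    intro h hh
    unfold leadCoeff Work.MP_122e00_nt.TS.lc
    rw [Work.MP_122e00_nt.Csing_eq (by omega : 1 ≤ r - 1) h hh]
    rfl
  refine ⟨A, δ, C, S, hA, hδ, hS, fun k hkS => ?_⟩
  obtain ⟨h1, h2⟩ := hk k hkS
  have hne : (F.eval (k : ℤ)).toNat ≠ 0 := by omega
  refine ⟨h1, ?_, fun X hX hXa hXb => ?_⟩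
  · rw [hlead _ hne]
    have := Work.MP_122e00_nt.Csing_pos (by omega : 1 ≤ r - 1) _ hne
    unfold Work.MP_122e00_nt.TS.lc
    positivity
  · have h3 := h2 X hX hXa hXb
    rw [hlead _ hne]
    have e : (∑ n ∈ Finset.Icc 1 ⌊X⌋₊, ((((ζ : ArithmeticFunction ℕ) ^ r) n *
        ((ζ : ArithmeticFunction ℕ) ^ r) (n + (F.eval (k : ℤ)).toNat) : ℕ) : ℝ)) =
        Work.MP_122e00_nt.TS.cor (Work.MP_122e00_nt.TS.dr r) (Work.MP_122e00_nt.TS.dr r) ⌊X⌋₊
          (F.eval (k : ℤ)).toNat := by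
      unfold Work.MP_122e00_nt.TS.cor Work.MP_122e00_nt.TS.dr
      refine Finset.sum_congr rfl fun n _ => ?_
      push_cast
      rfl
    rw [e]
    exact h3

end Pool.Agent.Results.MP_122e00_nt.PolynomialShifts
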