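import Mathlib
import Pool.Agent.Work.MP_122e00_nt.Core.All
import Pool.Agent.Work.MP_122e00_nt.WR.AllS
import Pool.Agent.Work.MP_122e00_nt.Euler4

/-!
The asymptotics of the shifted convolution of `d_r` is equivalent to that of an explicit core, which
contains a proportion `55 / 1792` of the pairs of factorisations for `r = 3`; all the rest is
evaluated. Outside the range of level `1 / 2` this uses Weil's bound for Kloosterman sums.
-/

namespace Pool.Agent.Results.MP_122e00_nt.WeilRegion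

open Filter Topology ArithmeticFunction MeasureTheory
open scoped ArithmeticFunction.zeta

/-- The probability that `p ^ j` divides the product of `s` independent random integers. -/
noncomputable def prob (s p j : ℕ) : ℝ :=
  1 - (1 - 1 / (p : ℝ)) ^ s *
    ∑ i ∈ Finset.range j, ((i + s - 1).choose (s - 1) : ℝ) / (p : ℝ) ^ i

/-- The local factor at `p`, where `ν` is the exponent of `p` in the shift. -/
noncomputable def localFactor (s p ν : ℕ) : ℝ :=
  ∑ j ∈ Finset.range (ν + 1), (p : ℝ) ^ j * (prob s p j ^ 2 - prob s p (j + 1) ^ 2)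

/-- The conjectured leading coefficient of `D_r(X;h) / (X (log X)^(2(r-1)))`. -/
noncomputable def leadCoeff (r h : ℕ) : ℝ :=
  (∏' p : Nat.Primes, localFactor (r - 1) p (h.factorization p)) / ((r - 1).factorial : ℝ) ^ 2

/-- The shifted convolution sum `D_r(X;h)`. -/
noncomputable def D (r h : ℕ) (X : ℝ) : ℝ :=
  ∑ n ∈ Finset.Icc 1 ⌊X⌋₊, ((((ζ : ArithmeticFunction ℕ) ^ r) n *
    ((ζ : ArithmeticFunction ℕ) ^ r) (n + h) : ℕ) : ℝ)

/-- The condition of the core for a factorisation `v` of `n` and a factorisation `w` of `n + h`. -/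
def InCore (r : ℕ) (X : ℝ) (v w : Fin r → ℕ) : Prop :=
  (∀ i, (v i : ℝ) ^ 2 < X) ∧ (∀ i, (w i : ℝ) ^ 2 < X) ∧ ∀ i j k, i ≠ j →
    ((w i : ℝ) * w j) ^ 2 * (v k : ℝ) ^ 3 ≤ X ^ 3 ∧ ((v i : ℝ) * v j) ^ 2 * (w k : ℝ) ^ 3 ≤ X ^ 3

open Classical in
/-- The number of triples `(n, v, w)`, `n ≤ X`, `n = v_1 ⋯ v_r`, `n + h = w_1 ⋯ w_r`, in the core. -/
noncomputable def coreSum (r h : ℕ) (X : ℝ) : ℝ :=
  ∑ n ∈ Finset.Icc 1 ⌊X⌋₊, ((((Nat.finMulAntidiag r n ×ˢ Nat.finMulAntidiag r (n + h)).filter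
    fun p => InCore r X p.1 p.2).card : ℕ) : ℝ)

/-- The positions `x = (log v_1 / log X, …)` of the factors except the largest one; `x_last` is the
second largest, `1 - ∑ x` the largest and at most `1 / 2`. -/
def Dom (s : ℕ) : Set (Fin (s + 1) → ℝ) :=
  {x | (∀ i, 0 ≤ x i) ∧ (∀ i, x i ≤ x (Fin.last s)) ∧ x (Fin.last s) ≤ 1 - ∑ i, x i ∧
    1 - ∑ i, x i ≤ 1 / 2}

/-- The pairs of positions in the Weil region. -/
def Weil (s : ℕ) : Set ((Fin (s + 1) → ℝ) × (Fin (s + 1) → ℝ)) :=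
  {p | p.1 ∈ Dom s ∧ p.2 ∈ Dom s ∧
    (3 * ∑ i, p.1 i + 2 * (∑ i, p.2 i - p.2 (Fin.last s)) ≤ 2 ∨
     3 * ∑ i, p.2 i + 2 * (∑ i, p.1 i - p.1 (Fin.last s)) ≤ 2)}

/-- The proportion of the pairs of factorisations outside the core, `r = s + 2`. -/
noncomputable def kappa (s : ℕ) : ℝ :=
  1 - (1 - ((s : ℝ) + 2) / 2 ^ (s + 1)) ^ 2 +
    (((s : ℝ) + 2) * (s + 1) * (s + 1).factorial) ^ 2 * volume.real (Weil s)

theorem result :
    (∀ s h : ℕ, 0 < h →
      0 < leadCoeff (s + 2) h ∧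
      Tendsto (fun X : ℝ => (D (s + 2) h X - coreSum (s + 2) h X) /
        (X * (Real.log X) ^ (2 * (s + 1)))) atTop (𝓝 (kappa s * leadCoeff (s + 2) h)) ∧
      ((∃ P : Polynomial ℝ, P.natDegree = 2 * (s + 1) ∧
          Asymptotics.IsEquivalent atTop (D (s + 2) h) (fun X : ℝ => X * P.eval (Real.log X))) ↔
        ∃ l : ℝ, Tendsto (fun X : ℝ => coreSum (s + 2) h X / (X * (Real.log X) ^ (2 * (s + 1))))
          atTop (𝓝 l))) ∧
    kappa 1 = 1737 / 1792 ∧ kappa 2 = 4996861 / 6322176 := by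
  have hkap : ∀ s : ℕ, kappa s = Work.MP_122e00_nt.WR.kap (s + 1) (Fin.last s) 0 := by
    intro s
    have hset : Weil s = Work.MP_122e00_nt.WR.TD (Fin.last s) 0 := by
      ext p
      simp only [Weil, Work.MP_122e00_nt.WR.TD, Work.MP_122e00_nt.WR.WD, sub_zero]
      rfl
    unfold kappa Work.MP_122e00_nt.WR.kap
    rw [hset]
    push_cast
    ring_nf
  refine ⟨?_, ?_, ?_⟩
  · intro s h hh
    have hs : 1 ≤ s + 1 := by omega
    have hh0 : h ≠ 0 := by omega
    have hlead : leadCoeff (s + 2) h =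
        Work.MP_122e00_nt.Csing (s + 1) h / ((s + 1).factorial : ℝ) ^ 2 := by
      unfold leadCoeff
      rw [show s + 2 - 1 = s + 1 by omega, Work.MP_122e00_nt.Csing_eq hs h hh0]
      rfl
    have hpos := Work.MP_122e00_nt.Csing_pos hs h hh0
    have hl0 : 0 < leadCoeff (s + 2) h := by
      rw [hlead]
      positivity
    have hDS : ∀ X : ℝ, Work.MP_122e00_nt.Gen.DS (s + 1) h 0 ⌊X⌋₊ = D (s + 2) h X := by
      intro X
      unfold Work.MP_122e00_nt.Gen.DS D
      have e : Finset.Icc 1 ⌊X⌋₊ = Finset.Ioc 0 ⌊X⌋₊ := by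
        ext n
        simp only [Finset.mem_Icc, Finset.mem_Ioc]
        omega
      rw [e]
      refine Finset.sum_congr rfl fun n _ => ?_
      push_cast
      rfl
    have hIn : ∀ (X : ℝ) (v w : Fin (s + 1 + 1) → ℕ),
        Work.MP_122e00_nt.WR.IsCore (s + 1) 0 X v w ↔ InCore (s + 2) X v w := by
      intro X v w
      unfold Work.MP_122e00_nt.WR.IsCore InCore
      have e : X ^ ((3 : ℝ) + 0) = X ^ (3 : ℕ) := by
        rw [add_zero]
        exact_mod_cast Real.rpow_natCast X 3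
      rw [e]
    have hC : ∀ X : ℝ, Work.MP_122e00_nt.WR.coreS (s + 1) h 0 X = coreSum (s + 2) h X := by
      intro X
      unfold Work.MP_122e00_nt.WR.coreS coreSum
      refine Finset.sum_congr rfl fun n _ => ?_
      have e2 : (fun p : (Fin (s + 1 + 1) → ℕ) × (Fin (s + 1 + 1) → ℕ) =>
          Work.MP_122e00_nt.WR.IsCore (s + 1) 0 X p.1 p.2) =
          fun p => InCore (s + 2) X p.1 p.2 := by
        funext p
        exact propext (hIn X p.1 p.2)
      exact congrArg (fun P : (Fin (s + 1 + 1) → ℕ) × (Fin (s + 1 + 1) → ℕ) → Prop =>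
        (((@Finset.filter _ P (fun a => Classical.propDecidable (P a))
          (Nat.finMulAntidiag (s + 2) n ×ˢ Nat.finMulAntidiag (s + 2) (n + h))).card : ℕ) : ℝ)) e2
    obtain ⟨κ, hκ⟩ : ∃ κ : ℝ, κ = kappa s * leadCoeff (s + 2) h := ⟨_, rfl⟩
    rw [← hκ]
    have hQ : ∀ᶠ X : ℝ in atTop, 0 < X * (Real.log X) ^ (2 * (s + 1)) := by
      filter_upwards [eventually_gt_atTop (1 : ℝ)] with X hX
      have := Real.log_pos hX
      positivity
    have hlim : Tendsto (fun X : ℝ => (D (s + 2) h X - coreSum (s + 2) h X) /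
        (X * (Real.log X) ^ (2 * (s + 1)))) atTop (𝓝 κ) := by
      have h1 := Work.MP_122e00_nt.WR.sharp (s + 1) h (Fin.last s) hh0
      rw [← hkap s, ← hlead, ← hκ] at h1
      refine h1.congr fun X => ?_
      rw [hDS, hC]
    refine ⟨hl0, hlim, ?_⟩
    have h10 := Work.MP_122e00_nt.Core.prC10 (2 * (s + 1)) (D (s + 2) h) (by omega)
    rw [h10]
    have hκ1 : 0 < κ := by
      rw [hκ]
      refine mul_pos ?_ hl0
      have h2s : ((s : ℝ) + 2) ≤ 2 ^ (s + 1) := by
        have h3 : s + 1 + 1 ≤ 2 ^ (s + 1) := Nat.lt_two_pow_self (n := s + 1)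
        have h4 : ((s + 1 + 1 : ℕ) : ℝ) ≤ ((2 ^ (s + 1) : ℕ) : ℝ) := by exact_mod_cast h3
        push_cast at h4
        linarith
      have hp : (0 : ℝ) < 2 ^ (s + 1) := by positivity
      have h4 : ((s : ℝ) + 2) / 2 ^ (s + 1) ≤ 1 := by
        rw [div_le_one hp]
        exact h2s
      have h5 : 0 < ((s : ℝ) + 2) / 2 ^ (s + 1) := by positivity
      have h6 : 0 ≤ (((s : ℝ) + 2) * (s + 1) * (s + 1).factorial) ^ 2 * volume.real (Weil s) := by
        positivity
      unfold kappa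
      nlinarith
    have hsplit : ∀ X : ℝ, coreSum (s + 2) h X / (X * (Real.log X) ^ (2 * (s + 1))) =
        D (s + 2) h X / (X * (Real.log X) ^ (2 * (s + 1))) -
          (D (s + 2) h X - coreSum (s + 2) h X) / (X * (Real.log X) ^ (2 * (s + 1))) := by
      intro X
      rw [← sub_div]
      congr 1
      ring
    constructor
    · rintro ⟨l, _, hl⟩
      refine ⟨l - κ, ?_⟩
      have := hl.sub hlim
      refine this.congr fun X => ?_
      exact (hsplit X).symm
    · rintro ⟨l, hl⟩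
      have hl1 : 0 ≤ l := by
        refine ge_of_tendsto hl ?_
        filter_upwards [hQ] with X h2
        refine div_nonneg ?_ h2.le
        unfold coreSum
        exact Finset.sum_nonneg fun n _ => by positivity
      refine ⟨l + κ, by linarith, ?_⟩
      have := hl.add hlim
      refine this.congr fun X => ?_
      rw [hsplit X]
      ring
  · rw [hkap]
    exact Work.MP_122e00_nt.WR.vol3 _
  · rw [hkap]
    exact Work.MP_122e00_nt.WR.vol4 _

end Pool.Agent.Results.MP_122e00_nt.WeilRegion
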